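import Pool.Agent.H8.PL.Targets

/-!
# The folding map: bounds, fibres, neighbours
-/

set_option autoImplicit false

namespace Pool.Agent.H26.PL

open Pool.Agent.H8.PL

/-- increasing part -/
theorem tri_pos {W : ℕ} (hW : 4 ≤ W) {u k : ℤ} {t : ℕ} (ht : t < W)
    (hu : u = 2 * ((W : ℤ) - 1) * k + t) : tri W u = t ∧ sgn W u = true := by
  have h1 : u % (2 * ((W : ℤ) - 1)) = t := by
    rw [hu, Int.mul_add_emod_self_left]
    exact Int.emod_eq_of_lt (by omega) (by omega)
  unfold tri sgn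
  rw [h1, Int.toNat_natCast, if_pos ht]
  exact ⟨rfl, by simpa using ht⟩

/-- decreasing part -/
theorem tri_neg {W : ℕ} (hW : 4 ≤ W) {u k : ℤ} {t : ℕ} (ht0 : 0 < t) (ht : t + 1 < W)
    (hu : u = 2 * ((W : ℤ) - 1) * k - t) : tri W u = t ∧ sgn W u = false := by
  have h1 : u % (2 * ((W : ℤ) - 1)) = ((2 * (W - 1) - t : ℕ) : ℤ) := by
    have h2 : u = 2 * ((W : ℤ) - 1) * (k - 1) + ((2 * (W - 1) - t : ℕ) : ℤ) := by
      have h3 : ((2 * (W - 1) - t : ℕ) : ℤ) = 2 * ((W : ℤ) - 1) - t := by omega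
      rw [hu, h3]
      ring
    rw [h2, Int.mul_add_emod_self_left]
    exact Int.emod_eq_of_lt (by omega) (by omega)
  have h4 : ¬ (2 * (W - 1) - t < W) := by omega
  unfold tri sgn
  rw [h1, Int.toNat_natCast, if_neg h4]
  exact ⟨by omega, by simpa using h4⟩

theorem tri_cases {W : ℕ} (hW : 4 ≤ W) (u : ℤ) :
    (∃ k : ℤ, u = 2 * ((W : ℤ) - 1) * k + tri W u ∧ tri W u < W ∧ sgn W u = true) ∨
    (∃ k : ℤ, u = 2 * ((W : ℤ) - 1) * k - tri W u ∧ 0 < tri W u ∧ tri W u + 1 < W ∧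
      sgn W u = false) := by
  have hm : (0 : ℤ) < 2 * ((W : ℤ) - 1) := by omega
  have h0 := Int.emod_nonneg u hm.ne'
  have h1 := Int.emod_lt_of_pos u hm
  have h2 := Int.mul_ediv_add_emod u (2 * ((W : ℤ) - 1))
  by_cases h : (u % (2 * ((W : ℤ) - 1))).toNat < W
  · left
    have h3 : u = 2 * ((W : ℤ) - 1) * (u / (2 * ((W : ℤ) - 1))) +
        ((u % (2 * ((W : ℤ) - 1))).toNat : ℤ) := by
      rw [Int.toNat_of_nonneg h0]
      exact h2.symm
    obtain ⟨h4, h5⟩ := tri_pos hW h h3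
    rw [h4]
    exact ⟨_, h3, h, h5⟩
  · right
    have h3 : u = 2 * ((W : ℤ) - 1) * (u / (2 * ((W : ℤ) - 1)) + 1) -
        ((2 * (W - 1) - (u % (2 * ((W : ℤ) - 1))).toNat : ℕ) : ℤ) := by
      have h6 : ((2 * (W - 1) - (u % (2 * ((W : ℤ) - 1))).toNat : ℕ) : ℤ) =
        2 * ((W : ℤ) - 1) - u % (2 * ((W : ℤ) - 1)) := by omega
      rw [h6]
      linear_combination (-1 : ℤ) * h2
    have h7 : 0 < 2 * (W - 1) - (u % (2 * ((W : ℤ) - 1))).toNat := by omega
    have h8 : 2 * (W - 1) - (u % (2 * ((W : ℤ) - 1))).toNat + 1 < W := by omega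
    obtain ⟨h4, h5⟩ := tri_neg hW h7 h8 h3
    rw [h4]
    exact ⟨_, h3, h7, h8, h5⟩

theorem tri_lt {W : ℕ} (hW : 4 ≤ W) (u : ℤ) : tri W u < W := by
  rcases tri_cases hW u with ⟨k, h1, h2, h3⟩ | ⟨k, h1, h2, h3, h4⟩
  · exact h2
  · omega

/-- congruent points -/
theorem tri_congr {W : ℕ} (hW : 4 ≤ W) {u v : ℤ} (h : 2 * ((W : ℤ) - 1) ∣ u - v) :
    tri W u = tri W v ∧ sgn W u = sgn W v := by
  obtain ⟨c, hc⟩ := h
  have huv : u = v + 2 * ((W : ℤ) - 1) * c := by linear_combination hc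
  rcases tri_cases hW v with ⟨k, h1, h2, h3⟩ | ⟨k, h1, h2, h3, h4⟩
  · obtain ⟨h4, h5⟩ := tri_pos hW (u := u) (k := k + c) h2 (by
      rw [huv]; conv_lhs => rw [h1]
      ring)
    rw [h4, h5, h3]
    exact ⟨rfl, rfl⟩
  · obtain ⟨h5, h6⟩ := tri_neg hW (u := u) (k := k + c) h2 h3 (by
      rw [huv]; conv_lhs => rw [h1]
      ring)
    rw [h5, h6, h4]
    exact ⟨rfl, rfl⟩

/-- reflected points -/
theorem tri_refl {W : ℕ} (hW : 4 ≤ W) {u v : ℤ} (h : 2 * ((W : ℤ) - 1) ∣ u + v) :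
    tri W u = tri W v ∧ (0 < tri W v → tri W v + 1 < W → sgn W u = !sgn W v) := by
  obtain ⟨c, hc⟩ := h
  have huv : u = 2 * ((W : ℤ) - 1) * c - v := by linear_combination hc
  rcases tri_cases hW v with ⟨k, h1, h2, h3⟩ | ⟨k, h1, h2, h3, h4⟩
  · by_cases h0 : tri W v = 0
    · obtain ⟨h4, h5⟩ := tri_pos hW (u := u) (k := c - k) (t := 0) (by omega) (by
        rw [h0] at h1
        rw [huv, h1]
        push_cast
        ring)
      rw [h4, h0]
      exact ⟨rfl, fun h => absurd h (lt_irrefl 0)⟩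
    · by_cases h6 : tri W v + 1 < W
      · obtain ⟨h4, h5⟩ := tri_neg hW (u := u) (k := c - k) (t := tri W v) (by omega) h6 (by
          rw [huv]; conv_lhs => rw [h1]
          ring)
        rw [h4, h5, h3]
        exact ⟨rfl, fun _ _ => rfl⟩
      · have h7 : (tri W v : ℤ) = (W : ℤ) - 1 := by omega
        obtain ⟨h4, h5⟩ := tri_pos hW (u := u) (k := c - k - 1) (t := tri W v) h2 (by
          rw [huv]; conv_lhs => rw [h1]
          rw [h7]
          ring)
        rw [h4]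
        exact ⟨rfl, fun _ h => absurd h h6⟩
  · obtain ⟨h5, h6⟩ := tri_pos hW (u := u) (k := c - k) (t := tri W v) (by omega) (by
      rw [huv]; conv_lhs => rw [h1]
      ring)
    rw [h5, h6, h4]
    exact ⟨rfl, fun _ _ => rfl⟩

/-- equal distances and directions -/
theorem dvd_of_eq {W : ℕ} (hW : 4 ≤ W) {u v : ℤ} (h : tri W u = tri W v) :
    (sgn W u = sgn W v → 2 * ((W : ℤ) - 1) ∣ u - v) ∧
    (sgn W u ≠ sgn W v → 2 * ((W : ℤ) - 1) ∣ u + v) ∧
    (tri W u = 0 ∨ tri W u + 1 = W → 2 * ((W : ℤ) - 1) ∣ u - v ∧ 2 * ((W : ℤ) - 1) ∣ u + v) := by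
  rcases tri_cases hW u with ⟨k, h1, h2, h3⟩ | ⟨k, h1, h2, h3, h4⟩ <;>
  rcases tri_cases hW v with ⟨k', h1', h2', h3'⟩ | ⟨k', h1', h2', h3', h4'⟩
  · refine ⟨fun _ => ⟨k - k', ?_⟩, fun h => ?_, fun h0 => ⟨⟨k - k', ?_⟩, ?_⟩⟩
    · rw [h] at h1
      linear_combination h1 - h1'
    · rw [h3, h3'] at h
      exact absurd rfl h
    · rw [h] at h1
      linear_combination h1 - h1'
    · rcases h0 with h0 | h0
      · refine ⟨k + k', ?_⟩
        have h5 : (tri W u : ℤ) = 0 := by omega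
        have h6 : (tri W v : ℤ) = 0 := by omega
        rw [h5] at h1
        rw [h6] at h1'
        linear_combination h1 + h1'
      · refine ⟨k + k' + 1, ?_⟩
        have h5 : (tri W u : ℤ) = (W : ℤ) - 1 := by omega
        have h6 : (tri W v : ℤ) = (W : ℤ) - 1 := by omega
        rw [h5] at h1
        rw [h6] at h1'
        linear_combination h1 + h1'
  · refine ⟨fun h => ?_, fun _ => ⟨k + k', ?_⟩, fun h0 => ?_⟩
    · rw [h3, h4'] at h
      exact absurd h (by simp)
    · rw [h] at h1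
      linear_combination h1 + h1'
    · omega
  · refine ⟨fun h => ?_, fun _ => ⟨k + k', ?_⟩, fun h0 => ?_⟩
    · rw [h4, h3'] at h
      exact absurd h (by simp)
    · rw [h] at h1
      linear_combination h1 + h1'
    · omega
  · refine ⟨fun _ => ⟨k - k', ?_⟩, fun h => ?_, fun h0 => ?_⟩
    · rw [h] at h1
      linear_combination h1 - h1'
    · rw [h4, h4'] at h
      exact absurd rfl h
    · omega

theorem fold0_iff {W H : ℕ} (p : ℤ × ℤ) : (fold0 W H p).1 = true ↔
    (tri W p.1 = 0 ∨ tri W p.1 + 1 = W ∨ tri H p.2 = 0 ∨ tri H p.2 + 1 = H ∨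
      sgn W p.1 = sgn H p.2) := by
  unfold fold0
  simp [or_assoc]

theorem fold0_eq {W H : ℕ} (p q : ℤ × ℤ) : fold0 W H p = fold0 W H q ↔
    ((fold0 W H p).1 = true ↔ (fold0 W H q).1 = true) ∧ tri W p.1 = tri W q.1 ∧
      tri H p.2 = tri H q.2 := by
  constructor
  · intro h
    rw [h]
    exact ⟨Iff.rfl, congrArg (fun t => t.2.1) h, congrArg (fun t => t.2.2) h⟩
  · rintro ⟨h1, h2, h3⟩
    exact Prod.ext (Bool.eq_iff_iff.mpr h1) (Prod.ext h2 h3)

theorem pf_FA : Z_FA := by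
  intro W H hW hH
  refine ⟨fun p => ⟨tri_lt hW _, tri_lt hH _, fun h => ?_⟩, fun p q => ?_, fun q => ?_⟩
  · have h1 := fold0_iff (W := W) (H := H) p
    rw [h] at h1
    have h2 : ¬ (tri W p.1 = 0 ∨ tri W p.1 + 1 = W ∨ tri H p.2 = 0 ∨ tri H p.2 + 1 = H ∨
      sgn W p.1 = sgn H p.2) := fun h3 => absurd (h1.mpr h3) (by simp)
    push Not at h2
    have h3 := tri_lt hW p.1
    have h4 := tri_lt hH p.2
    obtain ⟨a, b, c, d, -⟩ := h2
    omega
  · rw [fold0_eq, fold0_iff, fold0_iff]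
    constructor
    · rintro ⟨h1, h2, h3⟩
      obtain ⟨a1, a2, a3⟩ := dvd_of_eq hW h2
      obtain ⟨b1, b2, b3⟩ := dvd_of_eq hH h3
      by_cases hx : tri W p.1 = 0 ∨ tri W p.1 + 1 = W
      · obtain ⟨c1, c2⟩ := a3 hx
        by_cases hs : sgn H p.2 = sgn H q.2
        · exact Or.inl ⟨c1, b1 hs⟩
        · refine Or.inr ⟨?_, ?_⟩
          · simpa using c2
          · simpa using b2 hs
      · by_cases hy : tri H p.2 = 0 ∨ tri H p.2 + 1 = H
        · obtain ⟨c1, c2⟩ := b3 hy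
          by_cases hs : sgn W p.1 = sgn W q.1
          · exact Or.inl ⟨a1 hs, c1⟩
          · refine Or.inr ⟨?_, ?_⟩
            · simpa using a2 hs
            · simpa using c2
        · have h4 : sgn W p.1 = sgn H p.2 ↔ sgn W q.1 = sgn H q.2 := by
            rw [← h2, ← h3] at h1
            push Not at hx hy
            obtain ⟨x1, x2⟩ := hx
            obtain ⟨y1, y2⟩ := hy
            simpa [x1, x2, y1, y2] using h1
          by_cases hs : sgn W p.1 = sgn W q.1
          · have hs2 : sgn H p.2 = sgn H q.2 := by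
              rw [hs] at h4
              revert h4
              generalize sgn W q.1 = b1
              generalize sgn H p.2 = b2
              generalize sgn H q.2 = b3
              revert b1 b2 b3
              decide
            exact Or.inl ⟨a1 hs, b1 hs2⟩
          · have hs2 : sgn H p.2 ≠ sgn H q.2 := by
              revert h4 hs
              generalize sgn W p.1 = b0
              generalize sgn W q.1 = b1
              generalize sgn H p.2 = b2
              generalize sgn H q.2 = b3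
              revert b0 b1 b2 b3
              decide
            refine Or.inr ⟨?_, ?_⟩
            · simpa using a2 hs
            · simpa using b2 hs2
    · rintro (⟨h1, h2⟩ | ⟨h1, h2⟩)
      · obtain ⟨a1, a2⟩ := tri_congr hW h1
        obtain ⟨b1, b2⟩ := tri_congr hH h2
        rw [a1, a2, b1, b2]
        exact ⟨Iff.rfl, rfl, rfl⟩
      · have h1' : 2 * ((W : ℤ) - 1) ∣ p.1 + q.1 := by simpa using h1
        have h2' : 2 * ((H : ℤ) - 1) ∣ p.2 + q.2 := by simpa using h2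
        obtain ⟨a1, a2⟩ := tri_refl hW h1'
        obtain ⟨b1, b2⟩ := tri_refl hH h2'
        refine ⟨?_, a1, b1⟩
        rw [a1, b1]
        by_cases hx : tri W q.1 = 0 ∨ tri W q.1 + 1 = W
        · rcases hx with hx | hx <;> simp [hx]
        · by_cases hy : tri H q.2 = 0 ∨ tri H q.2 + 1 = H
          · rcases hy with hy | hy <;> simp [hy]
          · have l1 := tri_lt hW q.1
            have l2 := tri_lt hH q.2
            rw [a2 (by omega) (by omega), b2 (by omega) (by omega)]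
            simp
  · obtain ⟨⟨s, x, y⟩, hx, hy, hs⟩ := q
    simp only at hx hy hs
    cases s with
    | true =>
      refine ⟨((x : ℤ), (y : ℤ)), ?_⟩
      obtain ⟨a1, a2⟩ := tri_pos hW (u := (x : ℤ)) (k := 0) hx (by ring)
      obtain ⟨b1, b2⟩ := tri_pos hH (u := (y : ℤ)) (k := 0) hy (by ring)
      unfold fold0
      simp [a1, a2, b1, b2]
    | false =>
      obtain ⟨c1, c2, c3, c4⟩ := hs rfl
      refine ⟨((x : ℤ), -(y : ℤ)), ?_⟩
      obtain ⟨a1, a2⟩ := tri_pos hW (u := (x : ℤ)) (k := 0) hx (by ring)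
      obtain ⟨b1, b2⟩ := tri_neg hH (u := -(y : ℤ)) (k := 0) c3 c4 (by ring)
      unfold fold0
      simp only [a1, a2, b1, b2]
      have d1 : ¬ x = 0 := by omega
      have d2 : ¬ x + 1 = W := by omega
      have d3 : ¬ y = 0 := by omega
      have d4 : ¬ y + 1 = H := by omega
      simp [d1, d2, d3, d4]

end Pool.Agent.H26.PL
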