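import Pool.Agent.H8.PL.Targets

/-!
# The folding map: the four neighbours of a point
-/

set_option autoImplicit false

namespace Pool.Agent.H26.PL

open Pool.Agent.H8.PL

theorem zmod4 : ∀ k : ZMod 4, k = 0 ∨ k = 1 ∨ k = 2 ∨ k = 3 := by decide

theorem dir0 : dir 0 = (1, 0) := rfl
theorem dir1 : dir 1 = (0, 1) := rfl
theorem dir2 : dir 2 = (-1, 0) := rfl
theorem dir3 : dir 3 = (0, -1) := rfl

theorem pf_FD (hFA : Z_FA) : Z_FD := by
  intro W H hW hH p k k' h
  rw [(hFA W H hW hH).2.1] at h
  have e1 : ∀ c m : ℤ, 3 ≤ m → 2 * m ∣ c → -2 ≤ c → c ≤ 2 → c = 0 := by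
    rintro c m hm ⟨d, hd⟩ h1 h2
    by_contra h0
    have hd0 : d ≠ 0 := by
      rintro rfl
      exact h0 (by rw [hd, mul_zero])
    rcases lt_or_gt_of_ne hd0 with h3 | h3
    · nlinarith
    · nlinarith
  obtain ⟨x, y⟩ := p
  have hW' : (3 : ℤ) ≤ (W : ℤ) - 1 := by omega
  have hH' : (3 : ℤ) ≤ (H : ℤ) - 1 := by omega
  unfold Cg at h ⊢
  simp only [Prod.fst_add, Prod.snd_add, Prod.fst_neg, Prod.snd_neg] at h ⊢
  rcases zmod4 k with rfl | rfl | rfl | rfl <;> rcases zmod4 k' with rfl | rfl | rfl | rfl <;>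
    simp only [dir0, dir1, dir2, dir3] at h
  all_goals first
    | exact Or.inl rfl
    | (right
       refine ⟨by decide, ?_⟩
       rcases h with ⟨h1, h2⟩ | ⟨h1, h2⟩
       · exfalso
         first
           | (have h3 := e1 _ _ hW' h1 (by omega) (by omega); omega)
           | (have h3 := e1 _ _ hH' h2 (by omega) (by omega); omega)
       · refine ⟨?_, ?_⟩
         · convert h1 using 1; ring
         · convert h2 using 1; ring)
    | (exfalso
       rcases h with ⟨h1, h2⟩ | ⟨h1, h2⟩
       · first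
           | (have h3 := e1 _ _ hW' h1 (by omega) (by omega); omega)
           | (have h3 := e1 _ _ hH' h2 (by omega) (by omega); omega)
       · obtain ⟨d, hd⟩ := h1
         have h3 := congrArg (fun t : ℤ => t % 2) hd
         have h4 : (2 * ((W : ℤ) - 1) * d) % 2 = 0 := by
           rw [mul_assoc]
           exact Int.mul_emod_right 2 _
         simp only [h4] at h3
         omega)

end Pool.Agent.H26.PL
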