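import Pool.Agent.H26.PL.FA
import Pool.Agent.H26.PL.FD

/-!
# The folding map: neighbours
-/

set_option autoImplicit false

namespace Pool.Agent.H26.PL

open Pool.Agent.H8.PL

/-- the values at the neighbours -/
theorem tri_succ {W : ℕ} (hW : 4 ≤ W) (u : ℤ) :
    (sgn W u = true ∧ tri W u + 1 < W ∧ tri W (u + 1) = tri W u + 1 ∧ sgn W (u + 1) = true) ∨
    (sgn W u = true ∧ tri W u + 1 = W ∧ tri W (u + 1) + 1 = tri W u ∧ sgn W (u + 1) = false) ∨
    (sgn W u = false ∧ 0 < tri W u ∧ tri W u + 1 < W ∧ tri W (u + 1) + 1 = tri W u ∧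
      (0 < tri W (u + 1) → sgn W (u + 1) = false)) := by
  rcases tri_cases hW u with ⟨k, h1, h2, h3⟩ | ⟨k, h1, h2, h3, h4⟩
  · by_cases h : tri W u + 1 < W
    · left
      obtain ⟨a1, a2⟩ := tri_pos hW (u := u + 1) (k := k) (t := tri W u + 1) h (by
        conv_lhs => rw [h1]
        push_cast
        ring)
      exact ⟨h3, h, a1, a2⟩
    · right
      left
      have h5 : (tri W u : ℤ) = (W : ℤ) - 1 := by omega
      obtain ⟨a1, a2⟩ := tri_neg hW (u := u + 1) (k := k + 1) (t := tri W u - 1) (by omega)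
        (by omega) (by
        have h6 : ((tri W u - 1 : ℕ) : ℤ) = (W : ℤ) - 2 := by omega
        rw [h6]
        conv_lhs => rw [h1, h5]
        ring)
      exact ⟨h3, by omega, by omega, a2⟩
  · right
    right
    by_cases h : tri W u = 1
    · obtain ⟨a1, a2⟩ := tri_pos hW (u := u + 1) (k := k) (t := 0) (by omega) (by
        have h6 : (tri W u : ℤ) = 1 := by omega
        conv_lhs => rw [h1, h6]
        push_cast
        ring)
      exact ⟨h4, h2, h3, by omega, fun h7 => by omega⟩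
    · obtain ⟨a1, a2⟩ := tri_neg hW (u := u + 1) (k := k) (t := tri W u - 1) (by omega)
        (by omega) (by
        have h6 : ((tri W u - 1 : ℕ) : ℤ) = (tri W u : ℤ) - 1 := by omega
        rw [h6]
        conv_lhs => rw [h1]
        ring)
      exact ⟨h4, h2, h3, by omega, fun _ => a2⟩

/-- the values at the neighbours -/
theorem tri_pred {W : ℕ} (hW : 4 ≤ W) (u : ℤ) :
    (sgn W u = true ∧ 0 < tri W u ∧ tri W (u - 1) + 1 = tri W u ∧ sgn W (u - 1) = true) ∨
    (sgn W u = true ∧ tri W u = 0 ∧ tri W (u - 1) = 1 ∧ sgn W (u - 1) = false) ∨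
    (sgn W u = false ∧ 0 < tri W u ∧ tri W u + 1 < W ∧ tri W (u - 1) = tri W u + 1 ∧
      (tri W (u - 1) + 1 < W → sgn W (u - 1) = false)) := by
  rcases tri_cases hW u with ⟨k, h1, h2, h3⟩ | ⟨k, h1, h2, h3, h4⟩
  · by_cases h : 0 < tri W u
    · left
      obtain ⟨a1, a2⟩ := tri_pos hW (u := u - 1) (k := k) (t := tri W u - 1) (by omega) (by
        have h6 : ((tri W u - 1 : ℕ) : ℤ) = (tri W u : ℤ) - 1 := by omega
        rw [h6]
        conv_lhs => rw [h1]
        ring)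
      exact ⟨h3, h, by omega, a2⟩
    · right
      left
      have h5 : (tri W u : ℤ) = 0 := by omega
      obtain ⟨a1, a2⟩ := tri_neg hW (u := u - 1) (k := k) (t := 1) (by omega)
        (by omega) (by
        conv_lhs => rw [h1, h5]
        push_cast
        ring)
      exact ⟨h3, by omega, a1, a2⟩
  · right
    right
    by_cases h : tri W u + 2 = W
    · obtain ⟨a1, a2⟩ := tri_pos hW (u := u - 1) (k := k - 1) (t := W - 1) (by omega) (by
        have h6 : (tri W u : ℤ) = (W : ℤ) - 2 := by omega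
        have h7 : ((W - 1 : ℕ) : ℤ) = (W : ℤ) - 1 := by omega
        rw [h7]
        conv_lhs => rw [h1, h6]
        ring)
      exact ⟨h4, h2, h3, by omega, fun h7 => by omega⟩
    · obtain ⟨a1, a2⟩ := tri_neg hW (u := u - 1) (k := k) (t := tri W u + 1) (by omega)
        (by omega) (by
        conv_lhs => rw [h1]
        push_cast
        ring)
      exact ⟨h4, h2, h3, by omega, fun _ => a2⟩

/-- both neighbours -/
theorem tri_step {W : ℕ} (hW : 4 ≤ W) (u e : ℤ) (he : e = 1 ∨ e = -1) :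
    (tri W (u + e) = tri W u + 1 ∨ tri W u = tri W (u + e) + 1) ∧
    (0 < tri W u → tri W u + 1 < W → 0 < tri W (u + e) → tri W (u + e) + 1 < W →
      sgn W (u + e) = sgn W u) := by
  rcases he with rfl | rfl
  · rcases tri_succ hW u with ⟨h1, h2, h3, h4⟩ | ⟨h1, h2, h3, h4⟩ | ⟨h1, h2, h3, h4, h5⟩
    · exact ⟨Or.inl h3, fun _ _ _ _ => by rw [h1, h4]⟩
    · exact ⟨Or.inr h3.symm, fun _ _ _ _ => by omega⟩
    · exact ⟨Or.inr h4.symm, fun _ _ h _ => by rw [h1, h5 h]⟩
  · rw [← sub_eq_add_neg]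
    rcases tri_pred hW u with ⟨h1, h2, h3, h4⟩ | ⟨h1, h2, h3, h4⟩ | ⟨h1, h2, h3, h4, h5⟩
    · exact ⟨Or.inr h3.symm, fun _ _ _ _ => by rw [h1, h4]⟩
    · exact ⟨Or.inl (by omega), fun _ _ _ _ => by omega⟩
    · exact ⟨Or.inl h4, fun _ _ _ h => by rw [h1, h5 h]⟩

/-- every neighbour comes from a step; at the boundary with any direction -/
theorem tri_ex {W : ℕ} (hW : 4 ≤ W) (u : ℤ) (t : ℕ) (ht : t < W)
    (h : t = tri W u + 1 ∨ tri W u = t + 1) :
    (∃ e : ℤ, (e = 1 ∨ e = -1) ∧ tri W (u + e) = t) ∧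
    (tri W u = 0 ∨ tri W u + 1 = W → ∀ s : Bool, ∃ e : ℤ, (e = 1 ∨ e = -1) ∧
      tri W (u + e) = t ∧ sgn W (u + e) = s) := by
  have e2 : u + -1 = u - 1 := by ring
  rcases tri_succ hW u with ⟨a1, a2, a3, a4⟩ | ⟨a1, a2, a3, a4⟩ | ⟨a1, a2, a3, a4, a5⟩ <;>
  rcases tri_pred hW u with ⟨b1, b2, b3, b4⟩ | ⟨b1, b2, b3, b4⟩ | ⟨b1, b2, b3, b4, b5⟩
  · refine ⟨?_, fun h0 => by omega⟩
    rcases h with h | h
    · exact ⟨1, Or.inl rfl, by omega⟩
    · exact ⟨-1, Or.inr rfl, by rw [e2]; omega⟩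
  · refine ⟨⟨1, Or.inl rfl, by omega⟩, fun _ s => ?_⟩
    cases s with
    | true => exact ⟨1, Or.inl rfl, by omega, a4⟩
    | false => exact ⟨-1, Or.inr rfl, by rw [e2]; omega, by rw [e2]; exact b4⟩
  · rw [a1] at b1
    exact absurd b1 (by simp)
  · refine ⟨⟨1, Or.inl rfl, by omega⟩, fun _ s => ?_⟩
    cases s with
    | true => exact ⟨-1, Or.inr rfl, by rw [e2]; omega, by rw [e2]; exact b4⟩
    | false => exact ⟨1, Or.inl rfl, by omega, a4⟩
  · omega
  · rw [a1] at b1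
    exact absurd b1 (by simp)
  · rw [a1] at b1
    exact absurd b1 (by simp)
  · rw [a1] at b1
    exact absurd b1 (by simp)
  · refine ⟨?_, fun h0 => by omega⟩
    rcases h with h | h
    · exact ⟨-1, Or.inr rfl, by rw [e2]; omega⟩
    · exact ⟨1, Or.inl rfl, by omega⟩

/-- the steps -/
theorem dir_iff (P : ℤ × ℤ → Prop) (p : ℤ × ℤ) : (∃ k, P (p + dir k)) ↔
    (∃ e : ℤ, (e = 1 ∨ e = -1) ∧ P (p.1 + e, p.2)) ∨
      ∃ e : ℤ, (e = 1 ∨ e = -1) ∧ P (p.1, p.2 + e) := by
  have e0 : p + dir 0 = (p.1 + 1, p.2) := by rw [dir0]; exact Prod.ext rfl (add_zero _)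
  have e1 : p + dir 1 = (p.1, p.2 + 1) := by rw [dir1]; exact Prod.ext (add_zero _) rfl
  have e2 : p + dir 2 = (p.1 + -1, p.2) := by rw [dir2]; exact Prod.ext rfl (add_zero _)
  have e3 : p + dir 3 = (p.1, p.2 + -1) := by rw [dir3]; exact Prod.ext (add_zero _) rfl
  constructor
  · rintro ⟨k, hk⟩
    rcases zmod4 k with rfl | rfl | rfl | rfl
    · exact Or.inl ⟨1, Or.inl rfl, e0 ▸ hk⟩
    · exact Or.inr ⟨1, Or.inl rfl, e1 ▸ hk⟩
    · exact Or.inl ⟨-1, Or.inr rfl, e2 ▸ hk⟩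
    · exact Or.inr ⟨-1, Or.inr rfl, e3 ▸ hk⟩
  · rintro (⟨e, rfl | rfl, h⟩ | ⟨e, rfl | rfl, h⟩)
    · exact ⟨0, e0.symm ▸ h⟩
    · exact ⟨2, e2.symm ▸ h⟩
    · exact ⟨1, e1.symm ▸ h⟩
    · exact ⟨3, e3.symm ▸ h⟩

theorem fold0_mk {W H : ℕ} (p : ℤ × ℤ) (b : Bool × ℕ × ℕ) : fold0 W H p = b ↔
    ((fold0 W H p).1 = true ↔ b.1 = true) ∧ tri W p.1 = b.2.1 ∧ tri H p.2 = b.2.2 := by
  constructor
  · rintro rfl
    exact ⟨Iff.rfl, rfl, rfl⟩
  · rintro ⟨h1, h2, h3⟩
    exact Prod.ext (Bool.eq_iff_iff.mpr h1) (Prod.ext h2 h3)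

theorem pf_FN : Z_FN := by
  intro W H hW hH p a b hp
  rw [dir_iff (fun q => fold0 W H q = b.1) p]
  obtain ⟨⟨s, x, y⟩, hx, hy, hs⟩ := a
  obtain ⟨⟨s', x', y'⟩, hx', hy', hs'⟩ := b
  simp only at hx hy hs hx' hy' hs' hp
  rw [fold0_mk, fold0_iff] at hp
  simp only at hp
  obtain ⟨h1, h2, h3⟩ := hp
  simp only [fold0_mk, fold0_iff]
  have lx := tri_lt hW p.1
  have ly := tri_lt hH p.2
  unfold PG inr
  simp only
  constructor
  · rintro ⟨hc, hin⟩
    rcases hc with ⟨hc1, hc2⟩ | ⟨hc1, hc2⟩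
    · left
      obtain ⟨E1, E2⟩ := tri_ex hW p.1 x' hx' (by omega)
      by_cases hb : x' = 0 ∨ x' + 1 = W ∨ y' = 0 ∨ y' + 1 = H
      · obtain ⟨e, he, ht⟩ := E1
        have hst : s' = true := by
          by_contra h
          have := hs' (by simpa using h)
          omega
        exact ⟨e, he, ⟨fun _ => hst, fun _ => by omega⟩, ht, by omega⟩
      · by_cases hbx : tri W p.1 = 0 ∨ tri W p.1 + 1 = W
        · obtain ⟨e, he, ht, hsg⟩ := E2 hbx (if s' = true then sgn H p.2 else !sgn H p.2)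
          refine ⟨e, he, ?_, ht, by omega⟩
          rw [hsg, ht]
          have n1 : ¬ x' = 0 := by omega
          have n2 : ¬ x' + 1 = W := by omega
          have n3 : ¬ tri H p.2 = 0 := by omega
          have n4 : ¬ tri H p.2 + 1 = H := by omega
          cases s' <;> simp [n1, n2, n3, n4]
        · obtain ⟨e, he, ht⟩ := E1
          obtain ⟨S1, S2⟩ := tri_step hW p.1 e he
          have hsg := S2 (by omega) (by omega) (by omega) (by omega)
          have hss : s = s' := hin (by omega) (by omega)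
          refine ⟨e, he, ?_, ht, by omega⟩
          rw [hsg, ← hss, ← h1, ht]
          have n1 : ¬ x' = 0 := by omega
          have n2 : ¬ x' + 1 = W := by omega
          have n3 : ¬ tri W p.1 = 0 := by omega
          have n4 : ¬ tri W p.1 + 1 = W := by omega
          simp [n1, n2, n3, n4]
    · right
      obtain ⟨E1, E2⟩ := tri_ex hH p.2 y' hy' (by omega)
      by_cases hb : x' = 0 ∨ x' + 1 = W ∨ y' = 0 ∨ y' + 1 = H
      · obtain ⟨e, he, ht⟩ := E1
        have hst : s' = true := by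
          by_contra h
          have := hs' (by simpa using h)
          omega
        exact ⟨e, he, ⟨fun _ => hst, fun _ => by omega⟩, by omega, ht⟩
      · by_cases hbx : tri H p.2 = 0 ∨ tri H p.2 + 1 = H
        · obtain ⟨e, he, ht, hsg⟩ := E2 hbx (if s' = true then sgn W p.1 else !sgn W p.1)
          refine ⟨e, he, ?_, by omega, ht⟩
          rw [hsg, ht]
          have n1 : ¬ y' = 0 := by omega
          have n2 : ¬ y' + 1 = H := by omega
          have n3 : ¬ tri W p.1 = 0 := by omega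
          have n4 : ¬ tri W p.1 + 1 = W := by omega
          cases s' <;> simp [n1, n2, n3, n4]
        · obtain ⟨e, he, ht⟩ := E1
          obtain ⟨S1, S2⟩ := tri_step hH p.2 e he
          have hsg := S2 (by omega) (by omega) (by omega) (by omega)
          have hss : s = s' := hin (by omega) (by omega)
          refine ⟨e, he, ?_, by omega, ht⟩
          rw [hsg, ← hss, ← h1, ht]
          have n1 : ¬ y' = 0 := by omega
          have n2 : ¬ y' + 1 = H := by omega
          have n3 : ¬ tri H p.2 = 0 := by omega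
          have n4 : ¬ tri H p.2 + 1 = H := by omega
          simp [n1, n2, n3, n4]
  · rintro (⟨e, he, h4, h5, h6⟩ | ⟨e, he, h4, h5, h6⟩)
    · obtain ⟨S1, S2⟩ := tri_step hW p.1 e he
      refine ⟨Or.inl ⟨by omega, by omega⟩, fun i1 i2 => ?_⟩
      have hsg := S2 (by omega) (by omega) (by omega) (by omega)
      rw [Bool.eq_iff_iff, ← h1, ← h4, hsg]
      have n1 : ¬ tri W (p.1 + e) = 0 := by omega
      have n2 : ¬ tri W (p.1 + e) + 1 = W := by omega
      have n3 : ¬ tri W p.1 = 0 := by omega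
      have n4 : ¬ tri W p.1 + 1 = W := by omega
      simp [n1, n2, n3, n4]
    · obtain ⟨S1, S2⟩ := tri_step hH p.2 e he
      refine ⟨Or.inr ⟨by omega, by omega⟩, fun i1 i2 => ?_⟩
      have hsg := S2 (by omega) (by omega) (by omega) (by omega)
      rw [Bool.eq_iff_iff, ← h1, ← h4, hsg]
      have n1 : ¬ tri H (p.2 + e) = 0 := by omega
      have n2 : ¬ tri H (p.2 + e) + 1 = H := by omega
      have n3 : ¬ tri H p.2 = 0 := by omega
      have n4 : ¬ tri H p.2 + 1 = H := by omega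
      simp [n1, n2, n3, n4]

end Pool.Agent.H26.PL
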